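import Pool.Agent.H52.AL.B0

/-!
AL module B2: insertion of seven points (helper80).
-/

set_option autoImplicit false
open Classical

namespace Pool.H80.AL

open Pool.H52.AL

/-- the cell in block column `i`, block row `v` of the free square. -/
def P (z : Cell) {r : ℕ} (f g : Fin 7 → Fin r) (i v : Fin 7) : Cell :=
  (z.1 + r * i + f i, z.2 + r * v + g v)

theorem off_lt {r : ℕ} (f : Fin 7 → Fin r) {i j : Fin 7} (h : i < j) :
    r * (i : ℕ) + f i < r * (j : ℕ) + f j := by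
  have h1 : (i : ℕ) + 1 ≤ j := h
  have h2 : r * ((i : ℕ) + 1) ≤ r * j := Nat.mul_le_mul_left _ h1
  have h3 := (f i).2
  have h4 : r * ((i : ℕ) + 1) = r * i + r := by ring
  omega

theorem off_lt_iff {r : ℕ} (f : Fin 7 → Fin r) {i j : Fin 7} :
    r * (i : ℕ) + f i < r * (j : ℕ) + f j ↔ i < j := by
  constructor
  · intro h
    by_contra hcon
    push Not at hcon
    rcases hcon.lt_or_eq with h1 | h1
    · have := off_lt f h1; omega
    · subst h1; omega
  · exact off_lt f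

theorem off_lt_seven {r : ℕ} (f : Fin 7 → Fin r) (i : Fin 7) : r * (i : ℕ) + f i + 1 ≤ 7 * r := by
  have h1 : (i : ℕ) + 1 ≤ 7 := i.2
  have h2 : r * ((i : ℕ) + 1) ≤ r * 7 := Nat.mul_le_mul_left _ h1
  have h3 := (f i).2
  have h4 : r * ((i : ℕ) + 1) = r * i + r := by ring
  omega

theorem off_inj {r : ℕ} (f f' : Fin 7 → Fin r) {i j : Fin 7}
    (h : r * (i : ℕ) + f i = r * (j : ℕ) + f' j) : i = j ∧ (f i : ℕ) = f' j := by
  have h3 := (f i).2
  have h4 := (f' j).2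
  have h5 : (i : ℕ) = j := by
    by_contra hne
    rcases Nat.lt_or_gt_of_ne hne with h1 | h1
    · have h2 : r * ((i : ℕ) + 1) ≤ r * j := Nat.mul_le_mul_left _ h1
      have h4 : r * ((i : ℕ) + 1) = r * i + r := by ring
      omega
    · have h2 : r * ((j : ℕ) + 1) ≤ r * i := Nat.mul_le_mul_left _ h1
      have h4 : r * ((j : ℕ) + 1) = r * j + r := by ring
      omega
  refine ⟨Fin.ext h5, ?_⟩
  rw [h5] at h
  omega

theorem P_fst_lt {z : Cell} {r : ℕ} {f g : Fin 7 → Fin r} {i v j u : Fin 7} :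
    (P z f g i v).1 < (P z f g j u).1 ↔ i < j := by
  simp only [P]
  rw [← off_lt_iff f]
  omega

theorem P_snd_lt {z : Cell} {r : ℕ} {f g : Fin 7 → Fin r} {i v j u : Fin 7} :
    (P z f g i v).2 < (P z f g j u).2 ↔ v < u := by
  simp only [P]
  rw [← off_lt_iff g]
  omega

theorem P_sl {z : Cell} {r : ℕ} {f g : Fin 7 → Fin r} {i v j u : Fin 7} :
    sl (P z f g i v) (P z f g j u) ↔ i < j ∧ v < u := by
  unfold sl
  rw [P_fst_lt, P_snd_lt]

theorem P_fst_eq {z : Cell} {r : ℕ} {f g : Fin 7 → Fin r} {i v j u : Fin 7} :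
    (P z f g i v).1 = (P z f g j u).1 ↔ i = j := by
  constructor
  · intro h
    simp only [P] at h
    exact (off_inj f f (by omega)).1
  · rintro rfl; rfl

theorem P_snd_eq {z : Cell} {r : ℕ} {f g : Fin 7 → Fin r} {i v j u : Fin 7} :
    (P z f g i v).2 = (P z f g j u).2 ↔ v = u := by
  constructor
  · intro h
    simp only [P] at h
    exact (off_inj g g (by omega)).1
  · rintro rfl; rfl

theorem P_inj {z : Cell} {r : ℕ} {f g : Fin 7 → Fin r} {i v j u : Fin 7} :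
    P z f g i v = P z f g j u ↔ i = j ∧ v = u := by
  rw [Prod.ext_iff, P_fst_eq, P_snd_eq]

/-- the seven points. -/
noncomputable def K (z : Cell) {r : ℕ} (f g : Fin 7 → Fin r) (κ : Fin 7 → Fin 7) : Finset Cell :=
  Finset.univ.image fun i => P z f g i (κ i)

theorem mem_K {z : Cell} {r : ℕ} {f g : Fin 7 → Fin r} {κ : Fin 7 → Fin 7} {w : Cell} :
    w ∈ K z f g κ ↔ ∃ i, P z f g i (κ i) = w := by
  simp [K]

theorem card_K (z : Cell) {r : ℕ} (f g : Fin 7 → Fin r) (κ : Fin 7 → Fin 7) :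
    (K z f g κ).card = 7 := by
  rw [K, Finset.card_image_of_injective _ (fun i j h => (P_inj.mp h).1)]
  simp

/-- the situation: a free square with origin `z` in `ω0`. -/
structure Free (X Y : Finset Cell → Prop) (M r : ℕ) (ω0 : Finset Cell) (z : Cell) : Prop where
  sub : ω0 ⊆ grid M
  h1 : z.1 + 7 * r ≤ M
  h2 : z.2 + 7 * r ≤ M
  hU : U X ω0 z
  hD : D Y ω0 (z.1 + 7 * r, z.2 + 7 * r)
  hC : ¬ C1 X Y ω0

section
variable {X Y : Finset Cell → Prop} {M r : ℕ} {ω0 : Finset Cell} {z : Cell}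

theorem Free.P_U (h : Free X Y M r ω0 z) (f g : Fin 7 → Fin r) (i v : Fin 7) :
    U X ω0 (P z f g i v) :=
  U_mono h.hU (by simp only [P]; omega) (by simp only [P]; omega)

theorem Free.P_D (h : Free X Y M r ω0 z) (f g : Fin 7 → Fin r) (i v : Fin 7) :
    D Y ω0 ((P z f g i v).1 + 1, (P z f g i v).2 + 1) := by
  have h1 := off_lt_seven f i
  have h2 := off_lt_seven g v
  exact D_anti h.hD (by simp only [P]; omega) (by simp only [P]; omega)

theorem Free.P_notMem (h : Free X Y M r ω0 z) (f g : Fin 7 → Fin r) (i v : Fin 7) :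
    P z f g i v ∉ ω0 :=
  fun hm => h.hC ⟨_, hm, h.P_U f g i v, h.P_D f g i v⟩

theorem Free.P_grid (h : Free X Y M r ω0 z) (f g : Fin 7 → Fin r) (i v : Fin 7) :
    P z f g i v ∈ grid M := by
  have h1 := off_lt_seven f i
  have h2 := off_lt_seven g v
  have h3 := h.h1
  have h4 := h.h2
  simp only [grid, P, Finset.mem_product, Finset.mem_range]
  omega

theorem Free.U_iff (h : Free X Y M r ω0 z) (f g : Fin 7 → Fin r) (κ : Fin 7 → Fin 7) (w : Cell) :
    U X (ω0 ∪ K z f g κ) w ↔ U X ω0 w := by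
  apply U_congr
  intro p hp
  rw [Finset.mem_union]
  constructor
  · intro h1; exact Or.inl h1
  · rintro (h1 | h1)
    · exact h1
    · obtain ⟨i, rfl⟩ := mem_K.mp h1
      exact absurd (h.P_U f g i _) hp

theorem Free.D_iff (h : Free X Y M r ω0 z) (f g : Fin 7 → Fin r) (κ : Fin 7 → Fin 7) (w : Cell) :
    D Y (ω0 ∪ K z f g κ) w ↔ D Y ω0 w := by
  apply D_congr
  intro p hp
  rw [Finset.mem_union]
  constructor
  · intro h1; exact Or.inl h1
  · rintro (h1 | h1)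
    · exact h1
    · obtain ⟨i, rfl⟩ := mem_K.mp h1
      exact absurd (h.P_D f g i _) hp

theorem Free.mem_iff (h : Free X Y M r ω0 z) (f g : Fin 7 → Fin r) (κ : Fin 7 → Fin 7)
    (w : Cell) :
    w ∈ K z f g κ ↔ w ∈ ω0 ∪ K z f g κ ∧ U X (ω0 ∪ K z f g κ) w ∧
      D Y (ω0 ∪ K z f g κ) (w.1 + 1, w.2 + 1) := by
  rw [h.U_iff, h.D_iff, Finset.mem_union]
  constructor
  · intro hw
    obtain ⟨i, rfl⟩ := mem_K.mp hw
    exact ⟨Or.inr hw, h.P_U f g i _, h.P_D f g i _⟩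
  · rintro ⟨hw | hw, hu, hd⟩
    · exact absurd ⟨w, hw, hu, hd⟩ h.hC
    · exact hw

theorem Free.in_K (h : Free X Y M r ω0 z) (f g : Fin 7 → Fin r) (κ : Fin 7 → Fin 7)
    (w : Cell) (hw : w ∈ ω0 ∪ K z f g κ) (hi : In X Y (ω0 ∪ K z f g κ) w) : w ∈ K z f g κ := by
  rw [h.mem_iff]
  obtain ⟨⟨p, hp, hu, hs⟩, p', hp', hs', hd⟩ := hi
  refine ⟨hw, U_mono hu hs.1.le hs.2.le, D_anti hd ?_ ?_⟩
  · have := hs'.1
    simp only
    omega
  · have := hs'.2
    simp only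
    omega

theorem Free.goodS (h : Free X Y M r ω0 z) (f g : Fin 7 → Fin r) (κ : Fin 7 → Fin 7)
    (hκ : Function.Injective κ) : GoodS X Y (ω0 ∪ K z f g κ) := by
  intro p hp p' hp' hi hi' hne
  obtain ⟨i, rfl⟩ := mem_K.mp (h.in_K f g κ p hp hi)
  obtain ⟨j, rfl⟩ := mem_K.mp (h.in_K f g κ p' hp' hi')
  have hij : i ≠ j := by rintro rfl; exact hne rfl
  refine ⟨fun e => hij (P_fst_eq.mp e), fun e => hij (hκ (P_snd_eq.mp e))⟩

theorem Free.notC4 (h : Free X Y M r ω0 z) (f g : Fin 7 → Fin r) (κ : Fin 7 → Fin 7)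
    (hκ : ∀ i j k l : Fin 7, i < j → j < k → k < l → κ i < κ j → κ j < κ k → κ k < κ l → False) :
    ¬ C4 X Y (ω0 ∪ K z f g κ) := by
  rintro ⟨p1, hp1, p2, hp2, p3, hp3, p4, hp4, hu, h12, h23, h34, hd⟩
  have m1 : p1 ∈ K z f g κ := by
    rw [h.mem_iff]
    refine ⟨hp1, hu, D_anti hd ?_ ?_⟩ <;> simp only <;> unfold sl at * <;> omega
  have m2 : p2 ∈ K z f g κ := by
    rw [h.mem_iff]
    refine ⟨hp2, U_mono hu ?_ ?_, D_anti hd ?_ ?_⟩ <;> (try simp only) <;> unfold sl at * <;> omega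
  have m3 : p3 ∈ K z f g κ := by
    rw [h.mem_iff]
    refine ⟨hp3, U_mono hu ?_ ?_, D_anti hd ?_ ?_⟩ <;> (try simp only) <;> unfold sl at * <;> omega
  have m4 : p4 ∈ K z f g κ := by
    rw [h.mem_iff]
    refine ⟨hp4, U_mono hu ?_ ?_, hd⟩ <;> unfold sl at * <;> omega
  obtain ⟨i, rfl⟩ := mem_K.mp m1
  obtain ⟨j, rfl⟩ := mem_K.mp m2
  obtain ⟨k, rfl⟩ := mem_K.mp m3
  obtain ⟨l, rfl⟩ := mem_K.mp m4
  rw [P_sl] at h12 h23 h34
  exact hκ i j k l h12.1 h23.1 h34.1 h12.2 h23.2 h34.2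

theorem Free.notCB (h : Free X Y M r ω0 z) (f g : Fin 7 → Fin r) (κ : Fin 7 → Fin 7)
    (hκ : ∀ i j k l : Fin 7, i < j → j < k → k < l → κ i < κ k → κ k < κ j → κ j < κ l → False) :
    ¬ CB X Y (ω0 ∪ K z f g κ) := by
  rintro ⟨p1, hp1, p2, hp2, p3, hp3, p4, hp4, hu, ⟨h12, h13, h23, h32, h24, h34⟩, hd⟩
  have m1 : p1 ∈ K z f g κ := by
    rw [h.mem_iff]
    refine ⟨hp1, hu, D_anti hd ?_ ?_⟩ <;> simp only <;> unfold sl at * <;> omega
  have m2 : p2 ∈ K z f g κ := by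
    rw [h.mem_iff]
    refine ⟨hp2, U_mono hu ?_ ?_, D_anti hd ?_ ?_⟩ <;> (try simp only) <;> unfold sl at * <;> omega
  have m3 : p3 ∈ K z f g κ := by
    rw [h.mem_iff]
    refine ⟨hp3, U_mono hu ?_ ?_, D_anti hd ?_ ?_⟩ <;> (try simp only) <;> unfold sl at * <;> omega
  have m4 : p4 ∈ K z f g κ := by
    rw [h.mem_iff]
    refine ⟨hp4, U_mono hu ?_ ?_, hd⟩ <;> unfold sl at * <;> omega
  obtain ⟨i, rfl⟩ := mem_K.mp m1
  obtain ⟨j, rfl⟩ := mem_K.mp m2
  obtain ⟨k, rfl⟩ := mem_K.mp m3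
  obtain ⟨l, rfl⟩ := mem_K.mp m4
  rw [P_sl] at h12 h13 h24 h34
  rw [P_fst_lt] at h23
  rw [P_snd_lt] at h32
  exact hκ i j k l h12.1 h23 h34.1 h13.2 h32 h24.2

theorem Free.sw_eq (h : Free X Y M r ω0 z) (f g : Fin 7 → Fin r) (κ κ' : Fin 7 → Fin 7)
    (i j : Fin 7) (hij : i ≠ j) (hi : κ' i = κ j) (hj : κ' j = κ i)
    (ho : ∀ l, l ≠ i → l ≠ j → κ' l = κ l) :
    sw (ω0 ∪ K z f g κ) (P z f g i (κ i)) (P z f g j (κ j)) = ω0 ∪ K z f g κ' := by
  have e1 : ((P z f g i (κ i)).1, (P z f g j (κ j)).2) = P z f g i (κ j) := rfl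
  have e2 : ((P z f g j (κ j)).1, (P z f g i (κ i)).2) = P z f g j (κ i) := rfl
  unfold sw
  rw [e1, e2]
  ext w
  rw [Finset.mem_insert, Finset.mem_insert, Finset.mem_erase, Finset.mem_erase,
    Finset.mem_union, Finset.mem_union, mem_K, mem_K]
  constructor
  · rintro (rfl | rfl | ⟨n1, n2, hw | ⟨l, rfl⟩⟩)
    · exact Or.inr ⟨i, by rw [hi]⟩
    · exact Or.inr ⟨j, by rw [hj]⟩
    · exact Or.inl hw
    · refine Or.inr ⟨l, ?_⟩
      rw [ho l (by rintro rfl; exact n2 rfl) (by rintro rfl; exact n1 rfl)]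
  · rintro (hw | ⟨l, rfl⟩)
    · refine Or.inr (Or.inr ⟨?_, ?_, Or.inl hw⟩)
      · rintro rfl; exact h.P_notMem f g _ _ hw
      · rintro rfl; exact h.P_notMem f g _ _ hw
    · by_cases hli : l = i
      · subst hli; left; rw [hi]
      · by_cases hlj : l = j
        · subst hlj; right; left; rw [hj]
        · refine Or.inr (Or.inr ⟨?_, ?_, Or.inr ⟨l, ?_⟩⟩)
          · intro e; exact hlj (P_inj.mp e).1
          · intro e; exact hli (P_inj.mp e).1
          · rw [ho l hli hlj]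

/-- `3614725`, 0-based -/
def k0 : Fin 7 → Fin 7 := ![2, 5, 0, 3, 6, 1, 4]
/-- `3416725`, 0-based -/
def kA : Fin 7 → Fin 7 := ![2, 3, 0, 5, 6, 1, 4]
/-- `3612745`, 0-based -/
def kB : Fin 7 → Fin 7 := ![2, 5, 0, 1, 6, 3, 4]

theorem k0_inj : Function.Injective k0 := by
  intro i j; revert i j; decide

theorem k0_surj : Function.Surjective k0 := by
  intro i; revert i; decide

theorem k0_avoid : ∀ i j k l : Fin 7, i < j → j < k → k < l → k0 i < k0 j → k0 j < k0 k →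
    k0 k < k0 l → False := by
  decide

theorem kA_avoid : ∀ i j k l : Fin 7, i < j → j < k → k < l → kA i < kA k → kA k < kA j →
    kA j < kA l → False := by
  decide

theorem kB_avoid : ∀ i j k l : Fin 7, i < j → j < k → k < l → kB i < kB k → kB k < kB j →
    kB j < kB l → False := by
  decide

theorem Free.union_grid (h : Free X Y M r ω0 z) (f g : Fin 7 → Fin r) (κ : Fin 7 → Fin 7) :
    ω0 ∪ K z f g κ ⊆ grid M := by
  apply Finset.union_subset h.sub
  intro w hw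
  obtain ⟨i, rfl⟩ := mem_K.mp hw
  exact h.P_grid f g _ _

theorem Free.two (h : Free X Y M r ω0 z) (f g : Fin 7 → Fin r) :
    Two X Y M (ω0 ∪ K z f g k0) := by
  have hg := h.goodS f g k0 k0_inj
  have hmem : ∀ i, P z f g i (k0 i) ∈ ω0 ∪ K z f g k0 := fun i =>
    Finset.mem_union_right _ (mem_K.mpr ⟨i, rfl⟩)
  refine ⟨hg, h.notC4 f g k0 k0_avoid, ω0 ∪ K z f g kA, h.union_grid f g kA,
    ω0 ∪ K z f g kB, h.union_grid f g kB, ?_, ?_, ?_, h.notCB f g kA kA_avoid,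
    h.notCB f g kB kB_avoid⟩
  · intro e
    have h1 : P z f g 1 (kA 1) ∈ ω0 ∪ K z f g kB := by
      rw [← e]
      exact Finset.mem_union_right _ (mem_K.mpr ⟨1, rfl⟩)
    rcases Finset.mem_union.mp h1 with h1 | h1
    · exact h.P_notMem f g _ _ h1
    · obtain ⟨i, hi⟩ := mem_K.mp h1
      obtain ⟨h2, h3⟩ := P_inj.mp hi
      subst h2
      exact absurd h3 (by decide)
  · rw [← h.sw_eq f g k0 kA 1 3 (by decide) (by decide) (by decide) (by decide)]
    apply swap_rel hg (hmem 1) (hmem 3)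
    · exact P_fst_lt.mpr (by decide)
    · exact P_snd_lt.mpr (by decide)
    · exact ⟨P z f g 0 (k0 0), hmem 0, (h.U_iff f g k0 _).mpr (h.P_U f g _ _),
        P_sl.mpr (by decide : (0 : Fin 7) < 1 ∧ k0 0 < k0 3)⟩
    · exact ⟨P z f g 4 (k0 4), hmem 4, P_sl.mpr (by decide : (3 : Fin 7) < 4 ∧ k0 1 < k0 4),
        (h.D_iff f g k0 _).mpr (h.P_D f g _ _)⟩
  · rw [← h.sw_eq f g k0 kB 3 5 (by decide) (by decide) (by decide) (by decide)]
    apply swap_rel hg (hmem 3) (hmem 5)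
    · exact P_fst_lt.mpr (by decide)
    · exact P_snd_lt.mpr (by decide)
    · exact ⟨P z f g 2 (k0 2), hmem 2, (h.U_iff f g k0 _).mpr (h.P_U f g _ _),
        P_sl.mpr (by decide : (2 : Fin 7) < 3 ∧ k0 2 < k0 5)⟩
    · exact ⟨P z f g 6 (k0 6), hmem 6, P_sl.mpr (by decide : (5 : Fin 7) < 6 ∧ k0 3 < k0 6),
        (h.D_iff f g k0 _).mpr (h.P_D f g _ _)⟩

theorem K_eq_imp {f g f' g' : Fin 7 → Fin r} (h : K z f g k0 = K z f' g' k0) :
    f = f' ∧ g = g' := by
  have h1 : ∀ i, (f i : ℕ) = f' i ∧ (g (k0 i) : ℕ) = g' (k0 i) := by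
    intro i
    have h2 : P z f g i (k0 i) ∈ K z f' g' k0 := by
      rw [← h]
      exact mem_K.mpr ⟨i, rfl⟩
    obtain ⟨j, hj⟩ := mem_K.mp h2
    have h3 := congrArg Prod.fst hj
    have h4 := congrArg Prod.snd hj
    simp only [P] at h3 h4
    have h5 := off_inj f' f (i := j) (j := i) (by omega)
    have h6 := off_inj g' g (i := k0 j) (j := k0 i) (by omega)
    obtain ⟨rfl, h7⟩ := h5
    exact ⟨h7.symm, h6.2.symm⟩
  refine ⟨funext fun i => Fin.ext (h1 i).1, funext fun v => ?_⟩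
  obtain ⟨i, rfl⟩ := k0_surj v
  exact Fin.ext (h1 i).2

theorem free_inj {ω0' : Finset Cell} {z' : Cell} (h : Free X Y M r ω0 z)
    (h' : Free X Y M r ω0' z') (f g f' g' : Fin 7 → Fin r) (hz : ω0 = ω0' → z = z')
    (e : ω0 ∪ K z f g k0 = ω0' ∪ K z' f' g' k0) : ω0 = ω0' ∧ f = f' ∧ g = g' := by
  have h1 : K z f g k0 = K z' f' g' k0 := by
    ext w
    rw [h.mem_iff, h'.mem_iff, e]
  have h2 : ω0 = ω0' := by
    ext w
    constructor
    · intro hw
      have h3 : w ∈ ω0' ∪ K z' f' g' k0 := by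
        rw [← e]; exact Finset.mem_union_left _ hw
      rcases Finset.mem_union.mp h3 with h4 | h4
      · exact h4
      · rw [← h1] at h4
        obtain ⟨i, rfl⟩ := mem_K.mp h4
        exact absurd hw (h.P_notMem f g _ _)
    · intro hw
      have h3 : w ∈ ω0 ∪ K z f g k0 := by
        rw [e]; exact Finset.mem_union_left _ hw
      rcases Finset.mem_union.mp h3 with h4 | h4
      · exact h4
      · rw [h1] at h4
        obtain ⟨i, rfl⟩ := mem_K.mp h4
        exact absurd hw (h'.P_notMem f' g' _ _)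
  have h3 := hz h2
  subst h3
  exact ⟨h2, K_eq_imp h1⟩

end

/-- B2 -/
theorem insertion (X Y : Finset Cell → Prop) (q : ℝ) (hq0 : 0 < q) (hq1 : q < 1) (M r : ℕ) :
    q ^ 7 * (r : ℝ) ^ 14 * Pr q M (fun ω => Es X Y (7 * r) M ω ∧ ¬ C1 X Y ω) ≤
      Pr q M (Two X Y M) := by
  have hfree : ∀ ω0 ∈ (grid M).powerset.filter (fun ω => Es X Y (7 * r) M ω ∧ ¬ C1 X Y ω),
      ∃ z, Free X Y M r ω0 z := by
    intro ω0 h0
    rw [Finset.mem_filter, Finset.mem_powerset] at h0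
    obtain ⟨hs, ⟨z, h1, h2, hU, hD⟩, hC⟩ := h0
    exact ⟨z, hs, h1, h2, hU, hD, hC⟩
  choose! z hz using hfree
  set E := (grid M).powerset.filter (fun ω => Es X Y (7 * r) M ω ∧ ¬ C1 X Y ω) with hE
  set Src : Finset (Finset Cell × ((Fin 7 → Fin r) × (Fin 7 → Fin r))) :=
    E ×ˢ Finset.univ with hSrc
  set Φ : Finset Cell × ((Fin 7 → Fin r) × (Fin 7 → Fin r)) → Finset Cell :=
    fun x => x.1 ∪ K (z x.1) x.2.1 x.2.2 k0 with hΦ
  set wt : Finset Cell → ℝ := fun ω => q ^ ω.card * (1 - q) ^ (M ^ 2 - ω.card) with hwt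
  have h1q : 0 < 1 - q := by linarith
  have hwt0 : ∀ ω, 0 ≤ wt ω := fun ω => by simp only [hwt]; positivity
  have hinj : Set.InjOn Φ Src := by
    intro x hx x' hx' e
    have hx1 : x.1 ∈ E := (Finset.mem_product.mp hx).1
    have hx2 : x'.1 ∈ E := (Finset.mem_product.mp hx').1
    obtain ⟨a, b, c⟩ := free_inj (hz _ hx1) (hz _ hx2) x.2.1 x.2.2 x'.2.1 x'.2.2
      (fun h => by rw [h]) e
    exact Prod.ext a (Prod.ext b c)
  have hwle : ∀ x ∈ Src, q ^ 7 * wt x.1 ≤ wt (Φ x) := by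
    intro x hx
    have hx1 : x.1 ∈ E := (Finset.mem_product.mp hx).1
    have hdis : Disjoint x.1 (K (z x.1) x.2.1 x.2.2 k0) := by
      rw [Finset.disjoint_left]
      intro w hw hw2
      obtain ⟨i, rfl⟩ := mem_K.mp hw2
      exact (hz _ hx1).P_notMem _ _ _ _ hw
    have hcard : (Φ x).card = x.1.card + 7 := by
      simp only [hΦ]
      rw [Finset.card_union_of_disjoint hdis, card_K]
    simp only [hwt, hcard]
    have h2 : (1 - q) ^ (M ^ 2 - x.1.card) ≤ (1 - q) ^ (M ^ 2 - (x.1.card + 7)) :=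
      pow_le_pow_of_le_one h1q.le (by linarith) (by omega)
    calc q ^ 7 * (q ^ x.1.card * (1 - q) ^ (M ^ 2 - x.1.card)) =
        q ^ (x.1.card + 7) * (1 - q) ^ (M ^ 2 - x.1.card) := by rw [pow_add]; ring
      _ ≤ _ := mul_le_mul_of_nonneg_left h2 (by positivity)
  calc q ^ 7 * (r : ℝ) ^ 14 * Pr q M (fun ω => Es X Y (7 * r) M ω ∧ ¬ C1 X Y ω)
      = ∑ x ∈ Src, q ^ 7 * wt x.1 := by
        have hPr : Pr q M (fun ω => Es X Y (7 * r) M ω ∧ ¬ C1 X Y ω) = ∑ ω ∈ E, wt ω := by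
          unfold Pr
          apply Finset.sum_congr
          · ext ω; simp only [hE, Finset.mem_filter]
          · intro ω _; rfl
        rw [hPr, hSrc, Finset.sum_product, Finset.mul_sum]
        apply Finset.sum_congr rfl
        intro ω _
        simp only [Finset.sum_const, Finset.card_univ, Fintype.card_prod, Fintype.card_fun,
          Fintype.card_fin, nsmul_eq_mul]
        push_cast
        ring
    _ ≤ ∑ x ∈ Src, wt (Φ x) := Finset.sum_le_sum hwle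
    _ = ∑ ω ∈ Src.image Φ, wt ω := (Finset.sum_image hinj).symm
    _ ≤ Pr q M (Two X Y M) := by
        apply Finset.sum_le_sum_of_subset_of_nonneg
        · intro ω hω
          obtain ⟨x, hx, rfl⟩ := Finset.mem_image.mp hω
          have hx1 : x.1 ∈ E := (Finset.mem_product.mp hx).1
          rw [Finset.mem_filter, Finset.mem_powerset]
          exact ⟨(hz _ hx1).union_grid _ _ _, (hz _ hx1).two _ _⟩
        · intro ω _ _
          exact hwt0 ω

end Pool.H80.AL
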